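import Pool.Agent.P8H34.MB.Fin
import Pool.Agent.P8H53.MB.TRI
import Pool.Agent.P8H61.MB.EIG
import Pool.Agent.P8H88.MB.Wgt
import Pool.Agent.P8H16.MB.Num
import Pool.Agent.P8H16.MB.Ex
import Pool.Agent.P8H88.MB.Lim
import Pool.Agent.P8H19.MB.Ort
import Pool.Agent.P8H61.MB.RAT
import Pool.Agent.P8H86.MB.Cvr
import Pool.Agent.P8H41.MB.ORB
import Pool.Agent.P8H19.MB.Hul
import Pool.Agent.P8H19.MB.Loo

/-!
# Project MB: the packages

`TRI` by helper53, `EIG`, `RAT` by helper61, `WGT`, `LIM` by helper88, `NUM`, `EX` by helper16,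
`ORT`, `HUL`, `LOO` by helper19, `CVR` by helper86, `ORB` by helper41.
-/

set_option autoImplicit false

namespace Pool.Agent.P8H34.MB

theorem pk : Pk where
  tri := Pool.Agent.P8H53.MB.t_TRI
  eig := Pool.Agent.P8H61.MB.t_EIG
  wgt := Pool.Agent.P8H88.MB.t_WGT
  num := Pool.Agent.P8H16.MB.num
  ex := Pool.Agent.P8H16.MB.ex
  lim := Pool.Agent.P8H88.MB.t_LIM
  ort := Pool.Agent.P8H19.MB.t_ORT
  rat := Pool.Agent.P8H61.MB.t_RAT
  cvr := Pool.Agent.P8H86.MB.t_CVR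
  orb := Pool.Agent.P8H41.MB.t_ORB
  hul := Pool.Agent.P8H19.MB.t_HUL
  loo := Pool.Agent.P8H19.MB.t_LOO

end Pool.Agent.P8H34.MB
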