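import Pool.Agent.P8H34.MB.Stm
import Pool.Agent.P8H34.Main
import Pool.Agent.N110.CC.W2

/-!
# Commuting automorphisms and the cone conjecture, several blocks: the geometric assembly
-/

set_option autoImplicit false
set_option linter.overlappingInstances false
set_option linter.unusedSectionVars false

open FF Pool.Agent.W602.GT Pool.Agent.Y172 Pool.Agent.R887
open Pool.Agent.N110 Pool.Agent.N110.CC Pool.Agent.N492.PA Pool.Agent.N110.NV
open Pool.Agent.N165.KM (IntL Sandwich HasFD interior_sub interior_add_mem interior_smul_mem)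
open Pool.Agent.Y167 (cone cone_ind zero_mem_cone mem_cone_self cone_add cone_smul cone_mono Cp)

namespace Pool.Agent.P8H34.MB

/-- the packages -/
structure Pk : Prop where
  tri : S_TRI
  eig : S_EIG
  wgt : S_WGT
  num : S_NUM
  ex : S_EX
  lim : S_LIM
  ort : S_ORT
  rat : S_RAT
  cvr : S_CVR
  orb : S_ORB
  hul : S_HUL
  loo : S_LOO

section

variable {K : Type} [Field K] [Algebra ℂ K] {N n r b ρ : ℕ} {y : Fin (N + 1) → K}
  {c : Place ℂ K → Fin ρ → ℤ} {𝒮 : Subgroup (K ≃ₐ[ℂ] K)}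

theorem exists_dat (P : Pk) (hy : NormalModel y) (hn : Algebra.trdeg ℂ K = n) (hn0 : 0 < n)
    (hr : 0 < r) (hc : PicardBasis y c) {M : (K ≃ₐ[ℂ] K) → Matrix (Fin ρ) (Fin ρ) ℤ}
    (hM : Rep y c 𝒮 M) {φ : (Fin r → ℤ) → (K ≃ₐ[ℂ] K)}
    (hφ : ∀ u v, φ (u + v) = φ u * φ v) (hφ𝒮 : ∀ v, φ v ∈ 𝒮)
    (hent : ∀ v, v ≠ 0 → 1 < dynDegree (φ v) y n 1)
    {d : Fin b → ℕ} (hd : ∀ i, 2 ≤ d i) (hsum : ∑ i, d i = ρ) (hrank : r + b = ρ)
    {s : ∀ i, Fin (d i) → Fin ρ → ℤ}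
    (hli : LinearIndependent ℝ (fun p : Ix d => fun k => (s p.1 p.2 k : ℝ)))
    (hst : ∀ i v, PreservesSpan y c (s i) (φ v)) :
    ∃ (ℓ : Ix d → Frm r) (e : Module.Basis (Ix d) ℝ (Fin ρ → ℝ)),
      Dat d ℓ s (fun v => TR (M (φ (v + v)))) e ∧ (∀ x, x ∈ CE y c ↔ ∀ p, 0 ≤ e.repr x p) ∧
      ∀ x, x ∈ interior (CE y c) ↔ ∀ p, 0 < e.repr x p := by
  classical
  obtain ⟨i, hi⟩ := hy.ne
  obtain ⟨Hy, hHe, hH⟩ := exists_hyp hy hi
  obtain ⟨h, hh⟩ : ∃ h, h = toR (cls y (cQ c) Hy) := ⟨_, rfl⟩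
  have hpc := pc_eff hc.numClasses
  have hint : h ∈ interior (CE y c) := hh ▸ hyp_intN hy hc hi hHe hH
  have hpres := pres_S hy hc hM
  have hφ0 : φ 0 = 1 := phi_zero hφ
  have hφn : ∀ v, φ (-v) = (φ v)⁻¹ := by
    intro v
    rw [eq_inv_iff_mul_eq_one, ← hφ, neg_add_cancel, hφ0]
  have hρ : 0 < ρ := by omega
  obtain ⟨a, δ, ha, hδ, hg⟩ := Pool.Agent.N27.CC.leafGROW K N n ρ r y hy hn hn0 hr hρ c hc φ hφ
    (fun v => hM.ps _ (hφ𝒮 v)) hent (fun v => M (φ v)) (by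
      show M (φ 0) = 1
      rw [hφ0, hM.one]) (fun u v => by
      show M (φ (u + v)) = M (φ u) * M (φ v)
      rw [hφ, hM.mul _ (hφ𝒮 u) _ (hφ𝒮 v)]) (fun v P hP => by
      show (M (φ v)).mulVec (c P) = c (comap (φ (-v)) P)
      rw [hM.pull _ (hφ𝒮 v) P hP, hφn])
  have hρ0 : (0 : ℝ) < ρ := by exact_mod_cast hρ
  obtain ⟨ℓ, e, D⟩ := P.ex P.tri P.eig P.wgt Pool.Agent.N386.CC.leafPF
    (Pool.Agent.N707.CC.leafCE Pool.Agent.N386.CC.leafPF) P.num r b ρ d hd hsum hrank hρ (CE y c)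
    hpc ⟨h, hint⟩ (fun v => TR (M (φ v))) (by rw [hφ0, hM.one, TR_one])
    (fun u v => by rw [hφ, hM.mul _ (hφ𝒮 u) _ (hφ𝒮 v), TR_mul])
    (fun v x hx => TR_int _ hx) (fun v => hpres _ (hφ𝒮 v)) (a / ρ) δ (by positivity) hδ
    (fun v => by
      have h1 := hg v
      have h2 : ∑ i, ∑ j, |(M (φ v) i j : ℝ)| ≤
          (ρ : ℝ) * ∑ j, ‖TR (M (φ v)) (Pi.single j 1)‖ := by
        rw [Finset.sum_comm, Finset.mul_sum]
        refine Finset.sum_le_sum fun j _ => ?_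
        have h3 : ∀ i, |(M (φ v) i j : ℝ)| ≤ ‖TR (M (φ v)) (Pi.single j 1)‖ := by
          intro i
          have h4 := norm_le_pi_norm (TR (M (φ v)) (Pi.single j 1)) i
          have h5 : TR (M (φ v)) (Pi.single j 1) i = (M (φ v) i j : ℝ) := by
            rw [TR, Matrix.toLin'_apply, Matrix.mulVec_single_one]
            rfl
          rw [h5, Real.norm_eq_abs] at h4
          exact h4
        refine (Finset.sum_le_sum fun i _ => h3 i).trans (le_of_eq ?_)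
        rw [Finset.sum_const, Finset.card_univ, Fintype.card_fin, nsmul_eq_mul]
      rw [div_mul_eq_mul_div, div_le_iff₀ (by positivity)]
      linarith) s hli (fun v i j => by
      obtain ⟨a, ha⟩ := hst i v _ (hM.isPull ⟨φ v, hφ𝒮 v⟩) j
      exact ⟨a, ha⟩)
  obtain ⟨e', D', h1, h2⟩ := P.ort P.lim r b ρ d ℓ s _ e D (CE y c) hpc ⟨h, hint⟩
    (fun v => hpres _ (hφ𝒮 _))
  exact ⟨ℓ, e', D', h1, h2⟩

/-- the nef cone is the closed effective cone -/
theorem nef_eqB (P : Pk) (hy : NormalModel y) (hn : Algebra.trdeg ℂ K = n) (hn0 : 0 < n)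
    (hc : PicardBasis y c) (h𝒮 : ∀ φ ∈ 𝒮, IsAut φ y)
    {M : (K ≃ₐ[ℂ] K) → Matrix (Fin ρ) (Fin ρ) ℤ}
    (hM : Rep y c 𝒮 M) {φ : (Fin r → ℤ) → (K ≃ₐ[ℂ] K)} (hφ𝒮 : ∀ v, φ v ∈ 𝒮)
    {d : Fin b → ℕ} {s : ∀ i, Fin (d i) → Fin ρ → ℤ} {ℓ : Ix d → Frm r}
    {e : Module.Basis (Ix d) ℝ (Fin ρ → ℝ)} (D : Dat d ℓ s (fun v => TR (M (φ (v + v)))) e)
    (h1 : ∀ x, x ∈ CE y c ↔ ∀ p, 0 ≤ e.repr x p)
    (h2 : ∀ x, x ∈ interior (CE y c) ↔ ∀ p, 0 < e.repr x p) : nefCone y n c = CE y c := by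
  classical
  obtain ⟨i, hi⟩ := hy.ne
  obtain ⟨Hy, hHe, hH⟩ := exists_hyp hy hi
  have hint : toR (cls y (cQ c) Hy) ∈ interior (CE y c) := hyp_intN hy hc hi hHe hH
  obtain ⟨E, hEf, -, hE⟩ := Pool.Agent.N93.CC.leafHYP K N n ρ y hy hn hn0 c i hi Hy hHe hH
  refine Set.Subset.antisymm ((nef_sub_mov hy hn hn0 hc).trans (mov_sub hy hn hn0 hc)) ?_
  have hnef : divClass y c E ∈ nefCone y n c := subset_closure (coneOf_self ⟨E, hEf, rfl⟩)
  have hpos : ∀ p, 0 < e.repr (divClass y c E) p := (h2 _).1 (hE ▸ hint)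
  have hep : ∀ p, e p ∈ nefCone y n c := by
    intro p
    have h3 := P.lim r b ρ d ℓ s _ e D (nefCone y n c) isClosed_closure
      (fun t ht x hx => closure_coneOf_smul hx ht)
      (fun v x hx => pres_nef hy (h𝒮 _ (hφ𝒮 (v + v))) (hM.isPull ⟨φ (v + v), hφ𝒮 _⟩) hx) _ hnef p
    have h4 := closure_coneOf_smul h3 (inv_nonneg.2 (hpos p).le)
    rwa [smul_smul, inv_mul_cancel₀ (hpos p).ne', one_smul] at h4
  intro x hx
  rw [← e.sum_repr x]
  refine Finset.sum_induction _ (· ∈ nefCone y n c) (fun a b ha hb => closure_coneOf_add ha hb)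
    (subset_closure (coneOf_zero _)) fun p _ => closure_coneOf_smul (hep p) ((h1 x).1 hx p)

/-- the two forms of the existence of a fundamental domain -/
theorem fund_iff (hc : PicardBasis y c) {M : (K ≃ₐ[ℂ] K) → Matrix (Fin ρ) (Fin ρ) ℤ}
    (hM : Rep y c 𝒮 M) {A : Set (Fin ρ → ℝ)} :
    HasFD (fun f : 𝒮 => hM.TE f⁻¹) A ↔
      HasFundDomain {T | ∃ ψ ∈ 𝒮, IsPullBack y c ψ T} A := by
  have hset : ∀ T, (∃ ψ ∈ 𝒮, IsPullBack y c ψ T) ↔ ∃ f : 𝒮, T = hM.TE f⁻¹ := by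
    intro T
    constructor
    · rintro ⟨ψ, hψ, hT⟩
      refine ⟨(⟨ψ, hψ⟩ : 𝒮)⁻¹, ?_⟩
      rw [inv_inv]
      exact pull_ext hc hT (hM.isPull ⟨ψ, hψ⟩)
    · rintro ⟨f, rfl⟩
      exact ⟨_, (f⁻¹).2, hM.isPull f⁻¹⟩
  constructor
  · rintro ⟨S, hS, hU, hdis⟩
    refine ⟨S, hS, ?_, fun T hT hT1 => ?_⟩
    · rw [hU]
      ext x
      simp only [Set.mem_iUnion, Set.mem_setOf_eq]
      constructor
      · rintro ⟨f, hf⟩
        exact ⟨_, (hset _).2 ⟨f, rfl⟩, hf⟩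
      · rintro ⟨T, hT, hx⟩
        obtain ⟨f, rfl⟩ := (hset T).1 hT
        exact ⟨f, hx⟩
    · obtain ⟨f, rfl⟩ := (hset T).1 hT
      exact hdis f hT1
  · rintro ⟨S, hS, hU, hdis⟩
    refine ⟨S, hS, ?_, fun f hf => hdis _ ((hset _).2 ⟨f, rfl⟩) hf⟩
    rw [hU]
    ext x
    simp only [Set.mem_iUnion, Set.mem_setOf_eq]
    constructor
    · rintro ⟨T, hT, hx⟩
      obtain ⟨f, rfl⟩ := (hset T).1 hT
      exact ⟨f, hx⟩
    · rintro ⟨f, hf⟩
      exact ⟨_, (hset _).2 ⟨f, rfl⟩, hf⟩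

theorem plus_zero {d : Fin b → ℕ} {e : Module.Basis (Ix d) ℝ (Fin ρ → ℝ)} : 0 ∈ plus e := by
  intro i
  left
  intro j
  rw [map_zero]
  rfl

theorem plus_add {d : Fin b → ℕ} {e : Module.Basis (Ix d) ℝ (Fin ρ → ℝ)} {x z : Fin ρ → ℝ}
    (hx : x ∈ plus e) (hz : z ∈ plus e) : x + z ∈ plus e := by
  intro i
  rcases hx i with h1 | h1 <;> rcases hz i with h2 | h2
  · left
    intro j
    rw [map_add, Finsupp.add_apply, h1 j, h2 j, add_zero]
  · right
    intro j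
    rw [map_add, Finsupp.add_apply, h1 j, zero_add]
    exact h2 j
  · right
    intro j
    rw [map_add, Finsupp.add_apply, h2 j, add_zero]
    exact h1 j
  · right
    intro j
    rw [map_add, Finsupp.add_apply]
    exact add_pos (h1 j) (h2 j)

theorem plus_smul {d : Fin b → ℕ} {e : Module.Basis (Ix d) ℝ (Fin ρ → ℝ)} {x : Fin ρ → ℝ}
    (hx : x ∈ plus e) {t : ℝ} (ht : 0 ≤ t) : t • x ∈ plus e := by
  rcases ht.eq_or_lt with rfl | ht
  · rw [zero_smul]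
    exact plus_zero
  intro i
  rcases hx i with h1 | h1
  · left
    intro j
    rw [map_smul, Finsupp.smul_apply, h1 j, smul_zero]
  · right
    intro j
    rw [map_smul, Finsupp.smul_apply, smul_eq_mul]
    exact mul_pos ht (h1 j)

theorem plus_nonneg {d : Fin b → ℕ} {e : Module.Basis (Ix d) ℝ (Fin ρ → ℝ)} {x : Fin ρ → ℝ}
    (hx : x ∈ plus e) (p : Ix d) : 0 ≤ e.repr x p := by
  obtain ⟨i, j⟩ := p
  rcases hx i with h1 | h1
  · rw [h1 j]
  · exact (h1 j).le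

theorem plus_of_pos {d : Fin b → ℕ} {e : Module.Basis (Ix d) ℝ (Fin ρ → ℝ)} {x : Fin ρ → ℝ}
    (hx : ∀ p, 0 < e.repr x p) : x ∈ plus e := fun i => Or.inr fun j => hx ⟨i, j⟩

theorem InBlk.plus {d : Fin b → ℕ} {e : Module.Basis (Ix d) ℝ (Fin ρ → ℝ)} {x : Fin ρ → ℝ}
    {i : Fin b} (hx : InBlk e i x) : x ∈ plus e := by
  intro i'
  by_cases h : i' = i
  · right
    intro j
    exact (hx ⟨i', j⟩).1 h
  · left
    intro j
    exact (hx ⟨i', j⟩).2 h

/-- the coordinates of a combination of the classes of a block -/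
theorem repr_comb {d : Fin b → ℕ} {ℓ : Ix d → Frm r} {s : ∀ i, Fin (d i) → Fin ρ → ℤ}
    {G : (Fin r → ℤ) → ((Fin ρ → ℝ) →ₗ[ℝ] (Fin ρ → ℝ))}
    {e : Module.Basis (Ix d) ℝ (Fin ρ → ℝ)} (D : Dat d ℓ s G e) (i : Fin b) (t : Fin (d i) → ℝ) :
    ∀ p : Ix d, p.1 ≠ i → e.repr (comb (s i) t) p = 0 := by
  classical
  -- the span of the eigenvectors of the block is the span of the classes
  let V : Submodule ℝ (Fin ρ → ℝ) :=
    Submodule.span ℝ (Set.range fun j : Fin (d i) => (fun k => (s i j k : ℝ) : Fin ρ → ℝ))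
  let W : Submodule ℝ (Fin ρ → ℝ) :=
    Submodule.span ℝ (Set.range fun j : Fin (d i) => e ⟨i, j⟩)
  have hV : Module.finrank ℝ V = d i := by
    have h1 : LinearIndependent ℝ (fun j : Fin (d i) => (fun k => (s i j k : ℝ) : Fin ρ → ℝ)) :=
      D.li.comp (fun j : Fin (d i) => (⟨i, j⟩ : Ix d)) fun a b hab => by
        simpa using hab
    rw [finrank_span_eq_card h1, Fintype.card_fin]
  have hW : Module.finrank ℝ W = d i := by
    have h1 : LinearIndependent ℝ (fun j : Fin (d i) => e ⟨i, j⟩) :=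
      e.linearIndependent.comp (fun j : Fin (d i) => (⟨i, j⟩ : Ix d)) fun a b hab => by
        simpa using hab
    rw [finrank_span_eq_card h1, Fintype.card_fin]
  have hWV : W ≤ V := by
    rw [Submodule.span_le]
    rintro _ ⟨j, rfl⟩
    obtain ⟨t, ht⟩ := D.mem ⟨i, j⟩
    show e ⟨i, j⟩ ∈ V
    rw [ht]
    exact Submodule.sum_mem _ fun k _ => Submodule.smul_mem _ _ (Submodule.subset_span ⟨k, rfl⟩)
  have hEq : W = V := Submodule.eq_of_le_of_finrank_eq hWV (hW.trans hV.symm)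
  have h1 : comb (s i) t ∈ W := by
    rw [hEq]
    exact Submodule.sum_mem _ fun k _ => Submodule.smul_mem _ _ (Submodule.subset_span ⟨k, rfl⟩)
  intro p hp
  refine Submodule.span_induction (p := fun x _ => e.repr x p = 0) ?_ ?_ ?_ ?_ h1
  · rintro _ ⟨j, rfl⟩
    rw [e.repr_self, Finsupp.single_apply, if_neg]
    rintro rfl
    exact hp rfl
  · rw [map_zero]
    rfl
  · intro x z _ _ hx hz
    rw [map_add, Finsupp.add_apply, hx, hz, add_zero]
  · intro a x _ hx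
    rw [map_smul, Finsupp.smul_apply, hx, smul_zero]

/-- a vector in a block is a combination of the classes of the block -/
theorem InBlk.comb {d : Fin b → ℕ} {ℓ : Ix d → Frm r} {s : ∀ i, Fin (d i) → Fin ρ → ℤ}
    {G : (Fin r → ℤ) → ((Fin ρ → ℝ) →ₗ[ℝ] (Fin ρ → ℝ))}
    {e : Module.Basis (Ix d) ℝ (Fin ρ → ℝ)} (D : Dat d ℓ s G e) {i : Fin b} {a : Fin ρ → ℝ}
    (ha : InBlk e i a) : ∃ t : Fin (d i) → ℝ, t ≠ 0 ∧ comb (s i) t = a := by
  classical
  choose t ht using fun p : Ix d => D.mem p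
  have h0 : ∀ j : Fin (d i), ∃ τ : Fin (d i) → ℝ, e ⟨i, j⟩ = Pool.Agent.N110.CC.comb (s i) τ :=
    fun j => D.mem ⟨i, j⟩
  choose τ hτ using h0
  have h1 : Pool.Agent.N110.CC.comb (s i) (∑ j, e.repr a ⟨i, j⟩ • τ j) = a := by
    have h2 : a = ∑ j, e.repr a ⟨i, j⟩ • e ⟨i, j⟩ := by
      conv_lhs => rw [← e.sum_repr a]
      rw [Fintype.sum_sigma, Finset.sum_eq_single i]
      · intro i' _ hi'
        exact Finset.sum_eq_zero fun j _ => by rw [(ha ⟨i', j⟩).2 hi', zero_smul]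
      · intro h
        exact absurd (Finset.mem_univ i) h
    conv_rhs => rw [h2]
    unfold Pool.Agent.N110.CC.comb
    simp only [Finset.sum_apply, Pi.smul_apply, Finset.sum_smul, smul_eq_mul]
    rw [Finset.sum_comm]
    refine Finset.sum_congr rfl fun j _ => ?_
    rw [hτ]
    unfold Pool.Agent.N110.CC.comb
    rw [Finset.smul_sum]
    exact Finset.sum_congr rfl fun k _ => by rw [smul_smul]
  refine ⟨_, ?_, h1⟩
  intro h2
  rw [h2] at h1
  have h3 : a = 0 := by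
    rw [← h1]
    unfold Pool.Agent.N110.CC.comb
    exact Finset.sum_eq_zero fun j _ => by rw [Pi.zero_apply, zero_smul]
  have h4 := (ha ⟨i, ⟨0, lt_of_lt_of_le two_pos (D.two i)⟩⟩).1 rfl
  rw [h3, map_zero] at h4
  exact lt_irrefl _ h4

theorem main (P : Pk) (hy : NormalModel y) (hn : Algebra.trdeg ℂ K = n) (hn0 : 0 < n)
    (hr : 0 < r) (hc : PicardBasis y c) {φ : (Fin r → ℤ) → (K ≃ₐ[ℂ] K)}
    (hφ : ∀ u v, φ (u + v) = φ u * φ v) (haut : ∀ v, IsAut (φ v) y)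
    (hent : ∀ v, v ≠ 0 → 1 < dynDegree (φ v) y n 1)
    {d : Fin b → ℕ} (hd : ∀ i, 2 ≤ d i) (hsum : ∑ i, d i = ρ) (hrank : r + b = ρ)
    {s : ∀ i, Fin (d i) → Fin ρ → ℤ}
    (hli : LinearIndependent ℝ (fun p : Σ i, Fin (d i) => fun k => (s p.1 p.2 k : ℝ)))
    (hst : ∀ i v, PreservesSpan y c (s i) (φ v)) :
    (∃ e : Module.Basis (Σ i, Fin (d i)) ℝ (Fin ρ → ℝ), (∀ p, ∃ t, e p = comb (s p.1) t) ∧
      nefCone y n c = {x | ∀ p, 0 ≤ e.repr x p}) ∧
    nefCone y n c = closure (effCone y c) ∧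
    HasFundDomain {T | ∃ ψ, IsAut ψ y ∧ IsPullBack y c ψ T} (ratHull (nefCone y n c)) ∧
    (HasFundDomain {T | ∃ ψ, IsAut ψ y ∧ IsPullBack y c ψ T} (nefCone y n c ∩ effCone y c) ↔
      ∀ i, ∃ t, t ≠ 0 ∧ comb (s i) t ∈ effCone y c) ∧
    (ratHull (nefCone y n c) = nefCone y n c ∩ effCone y c ↔
      ∀ i, ∃ t, t ≠ 0 ∧ comb (s i) t ∈ effCone y c) := by
  classical
  obtain ⟨M, hM⟩ := exists_rep (𝒮 := autGroup y) hy hc fun φ hφ => isAut_ps hy hφ
  obtain ⟨ℓ, e, D, h1, h2⟩ := exists_dat P hy hn hn0 hr hc hM hφ haut hent hd hsum hrank hli hst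
  have hnef := nef_eqB P hy hn hn0 hc (𝒮 := autGroup y) (fun _ h => h) hM haut D h1 h2
  have hpc := pc_eff hc.numClasses
  obtain ⟨hE1, hE2⟩ := Pool.Agent.N40.CC.leafEFF K N ρ y hy c hc
  obtain ⟨F, hF, hcov, hFi⟩ := P.cvr Pool.Agent.N362.CC.leafCOV r b ρ d ℓ s _ e D
  have hO : nefCone y n c = {x | ∀ p, 0 ≤ e.repr x p} := by
    rw [hnef]
    ext x
    exact h1 x
  have hhull : ratHull (nefCone y n c) = plus e := by
    rw [hO]
    exact P.hul P.rat P.cvr Pool.Agent.N362.CC.leafCOV P.orb r b ρ d ℓ s _ e D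
  -- effective classes
  have heff : effCone y c ⊆ plus e := by
    intro x hx
    refine coneOf_ind (p := fun x => x ∈ plus e) plus_zero (fun _ _ => plus_add)
      (fun t x ht hx => plus_smul hx ht) ?_ hx
    rintro _ ⟨Q, hQ, rfl⟩
    have h3 : ∀ p, 0 ≤ e.repr (rcl c Q) p := (h1 _).1 (hE1 (coneOf_self ⟨Q, hQ, rfl⟩))
    have h4 : rcl c Q ∈ IntL ρ := fun i => ⟨c Q i, rfl⟩
    intro i
    rcases P.rat r b ρ d ℓ s _ e D _ h4 i with h5 | h5
    · exact Or.inl h5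
    · exact Or.inr fun j => lt_of_le_of_ne (h3 _) (h5 j).symm
  have hplusO : ∀ x ∈ plus e, x ∈ nefCone y n c := fun x hx => by
    rw [hO]
    exact plus_nonneg hx
  -- the interior
  obtain ⟨u, hu⟩ : (interior (CE y c)).Nonempty := by
    obtain ⟨i, hi⟩ := hy.ne
    obtain ⟨Hy, hHe, hH⟩ := exists_hyp hy hi
    exact ⟨_, hyp_intN hy hc hi hHe hH⟩
  have hcl : CE y c = closure (effCone y c) := by
    refine Set.Subset.antisymm (fun x hx => ?_) (closure_minimal hE1 isClosed_closure)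
    have hlim : Filter.Tendsto (fun k : ℕ => x + (1 / ((k : ℝ) + 1)) • u) Filter.atTop
        (nhds (x + (0 : ℝ) • u)) :=
      tendsto_const_nhds.add (tendsto_one_div_add_atTop_nhds_zero_nat.smul_const _)
    rw [zero_smul, add_zero] at hlim
    refine mem_closure_of_tendsto hlim (Filter.Eventually.of_forall fun k => hE2 ?_)
    show x + (1 / ((k : ℝ) + 1)) • u ∈ interior (CE y c)
    rw [add_comm x]
    exact interior_add_mem hpc.add (interior_smul_mem hpc.smul (by positivity) hu) hx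
  -- the group
  have hset : {T | ∃ ψ, IsAut ψ y ∧ IsPullBack y c ψ T} =
      {T | ∃ ψ ∈ autGroup y, IsPullBack y c ψ T} := rfl
  have hmul : ∀ f g : autGroup y, hM.TE (f * g)⁻¹ = hM.TE g⁻¹ * hM.TE f⁻¹ := fun f g => by
    rw [mul_inv_rev, hM.TE_mul]
  have hLI : ∀ f : autGroup y, ∀ x ∈ IntL ρ, hM.TE f⁻¹ x ∈ IntL ρ := fun f x hx => by
    rw [hM.TE_apply]
    exact TR_int _ hx
  have hNn : ∀ f : autGroup y, ∀ x ∈ nefCone y n c, hM.TE f⁻¹ x ∈ nefCone y n c := fun f x hx =>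
    pres_nef hy (f⁻¹).2 (hM.isPull f⁻¹) hx
  have hNe : ∀ f : autGroup y, ∀ x ∈ effCone y c, hM.TE f⁻¹ x ∈ effCone y c := fun f x hx =>
    pres_eff hy (f⁻¹).2 (hM.isPull f⁻¹) hx
  -- the covering, for all cones between
  have hFC : ∀ a ∈ F, a ∈ IntL ρ ∧ a ∈ plus e := fun a ha => by
    obtain ⟨h3, i, h4⟩ := hF a ha
    exact ⟨h3, h4.plus⟩
  have hcover : ∀ x ∈ interior (nefCone y n c), ∃ f : autGroup y, hM.TE f⁻¹ x ∈ cone F := by
    intro x hx
    rw [hnef] at hx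
    obtain ⟨v, hv⟩ := hcov x ((h2 x).1 hx)
    refine ⟨(⟨φ (v + v), haut _⟩ : autGroup y)⁻¹, ?_⟩
    rw [inv_inv]
    exact hv
  have hintplus : interior (nefCone y n c) ⊆ plus e := by
    rw [hnef]
    intro x hx
    exact plus_of_pos ((h2 x).1 hx)
  have hswP : Sandwich (nefCone y n c) (plus e) :=
    ⟨isClosed_closure, fun x hx z hz => closure_coneOf_add hx hz,
      fun t ht x hx => closure_coneOf_smul hx ht,
      fun x hx hx' => hpc.pointed x (hnef ▸ hx) (hnef ▸ hx'), hnef ▸ ⟨u, hu⟩, hplusO, hintplus,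
      fun x hx z hz => plus_add hx hz, fun t ht x hx => plus_smul hx ht⟩
  have hNp : ∀ f : autGroup y, ∀ x ∈ plus e, hM.TE f⁻¹ x ∈ plus e := by
    intro f x hx
    rw [← hhull] at hx ⊢
    refine coneOf_map (hM.TE f⁻¹).toLinearMap ?_ hx
    rintro a ⟨ha, ha'⟩
    refine ⟨hNn f a ha, ?_⟩
    choose q hq using ha'
    intro i
    refine ⟨∑ j, (M (f⁻¹ : autGroup y) i j : ℚ) * q j, ?_⟩
    show TR (M (f⁻¹ : autGroup y)) a i = _
    rw [TR, Matrix.toLin'_apply]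
    simp [Matrix.mulVec, dotProduct, hq]
  have hCpP : ∀ x ∈ plus e, x ∈ Cp (IntL ρ) (plus e) := by
    intro x hx
    refine P.orb r b ρ d ℓ s _ e D (Cp (IntL ρ) (plus e)) ⟨∅, by simp, zero_mem_cone _⟩
      (fun x hx z hz => Cp_add' hx hz) (fun t ht x hx => Cp_smul' hx ht) (fun v x hx => ?_)
      (fun i => ?_) hx
    · obtain ⟨S, hS, hx⟩ := hx
      refine cone_ind (p := fun z => TR (M (φ (v + v))) z ∈ Cp (IntL ρ) (plus e)) ?_
        (fun a b ha hb => ?_) (fun t a ht ha => ?_) (fun a ha => ?_) hx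
      · rw [map_zero]
        exact ⟨∅, by simp, zero_mem_cone _⟩
      · rw [map_add]
        exact Cp_add' ha hb
      · rw [map_smul]
        exact Cp_smul' ha ht
      · refine ⟨{TR (M (φ (v + v))) a}, fun z hz => ?_, mem_cone_self (Finset.mem_singleton_self _)⟩
        rw [Finset.mem_singleton] at hz
        rw [hz]
        refine ⟨TR_int _ (hS a ha).1, ?_⟩
        have h3 := hNp (⟨φ (v + v), haut _⟩ : autGroup y)⁻¹ a (hS a ha).2
        rw [inv_inv] at h3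
        exact h3
    · obtain ⟨a, ha, h3⟩ := hFi i
      refine ⟨a, ⟨{a}, fun z hz => ?_, mem_cone_self (Finset.mem_singleton_self _)⟩, h3⟩
      rw [Finset.mem_singleton] at hz
      rw [hz]
      exact hFC a ha
  have hfdP : HasFD (fun f : autGroup y => hM.TE f⁻¹) (plus e) :=
    HasFD.of_cover hswP hmul hLI hNp hCpP F hFC hcover
  -- effective classes in all blocks
  have hA : (∀ i, ∃ t, t ≠ 0 ∧ comb (s i) t ∈ effCone y c) →
      nefCone y n c ∩ effCone y c = plus e := by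
    intro hblk
    refine Set.Subset.antisymm (fun x hx => heff hx.2) fun x hx => ⟨hplusO x hx, ?_⟩
    refine P.orb r b ρ d ℓ s _ e D (effCone y c) (coneOf_zero _)
      (fun x hx z hz => coneOf_add hx hz) (fun t ht x hx => coneOf_smul hx ht)
      (fun v x hx => pres_eff hy (haut (v + v)) (hM.isPull ⟨φ (v + v), haut _⟩) hx)
      (fun i => ?_) hx
    obtain ⟨t, ht, hte⟩ := hblk i
    refine ⟨_, hte, ?_⟩
    have h3 := heff hte
    have h4 := repr_comb D i t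
    have h5 : comb (s i) t ≠ 0 := by
      intro h0
      apply ht
      have h6 : LinearIndependent ℝ
          (fun j : Fin (d i) => (fun k => (s i j k : ℝ) : Fin ρ → ℝ)) :=
        D.li.comp (fun j : Fin (d i) => (⟨i, j⟩ : Ix d)) fun a b hab => by
          simpa using hab
      funext j
      exact Fintype.linearIndependent_iff.1 h6 t h0 j
    have h6 : ∀ j : Fin (d i), 0 < e.repr (comb (s i) t) ⟨i, j⟩ := by
      rcases h3 i with h7 | h7
      · exfalso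
        apply h5
        apply e.repr.injective
        rw [map_zero]
        ext ⟨i', j⟩
        by_cases hi' : i' = i
        · subst hi'
          exact h7 j
        · exact h4 ⟨i', j⟩ hi'
      · exact h7
    rintro ⟨i', j⟩
    refine ⟨?_, h4 _⟩
    rintro rfl
    exact h6 j
  -- the converse
  have hB : (∀ x ∈ nefCone y n c, x ∈ IntL ρ → x ∈ nefCone y n c ∩ effCone y c) →
      ∀ i, ∃ t, t ≠ 0 ∧ comb (s i) t ∈ effCone y c := by
    intro hI i
    obtain ⟨a, ha, h3⟩ := hFi i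
    obtain ⟨t, ht, h4⟩ := h3.comb D
    refine ⟨t, ht, ?_⟩
    rw [h4]
    exact (hI a (hplusO _ h3.plus) (hFC a ha).1).2
  refine ⟨⟨e, D.mem, hO⟩, hnef.trans hcl, ?_, ⟨fun hfd => ?_, fun hblk => ?_⟩,
    ⟨fun heq => hB fun x hx hxI => ?_, fun hblk => ?_⟩⟩
  · rw [hhull, hset]
    exact (fund_iff hc hM).1 hfdP
  · rw [hset, ← fund_iff hc hM] at hfd
    refine hB (P.loo ρ (nefCone y n c) (nefCone y n c ∩ effCone y c) ?_ (autGroup y) _ hmul hLI
      (fun f x hx => ⟨hNn f x hx.1, hNe f x hx.2⟩) hNn hfd)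
    exact sandwich hy hn hn0 hc (hnef ▸ ⟨u, hu⟩)
  · rw [hA hblk, hset]
    exact (fund_iff hc hM).1 hfdP
  · rw [← heq]
    refine coneOf_self ⟨hx, fun i => ?_⟩
    obtain ⟨m, hm⟩ := hxI i
    exact ⟨m, by rw [hm]; norm_cast⟩
  · rw [hA hblk, hhull]

end

end Pool.Agent.P8H34.MB
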