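import Pool.Agent.N110.CC.Str
import Pool.Agent.N110.CC.WDefs
import Pool.Agent.N110.CC.HDefs
import Pool.Agent.N165.KM.Core

/-!
# Project MB (helper34): commuting automorphisms and the cone conjecture, several blocks

Row MP_e49dc9_ag. The starting library (`Pool.Agent.N110.CC`) treats a group `ℤ ^ r` of automorphisms
of positive entropy on `X` with Picard number `ρ = r + 1`. Here `ρ = r + b`, and `N¹(X) ⊗ ℚ` is the
direct sum of `b` invariant rational subspaces `V i`, of dimensions `d i ≥ 2`, with integral classes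
`s i j`. THEOREM: the nef cone is the cone over `ρ` independent eigenvectors, each in one of the `V i`;
`Aut X` has a rational polyhedral fundamental domain on the rational hull `Nef⁺`; and the cone
conjecture (for `Nef ∩ Eff`) is true if and only if every `V i` contains an effective class `≠ 0`.

Notation: the index set of the eigenvectors is `Ix d = Σ i, Fin (d i)`; `ev ℓ v` is the value of the
linear form `ℓ` on `ℝ ^ r` at the integral vector `v`; `comb (s i) t = ∑ j, t j • s i j`.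
Packages: TRI, EIG, WGT, NUM, EX, LIM, ORT, RAT, CVR, ORB, HUL, LOO. All are independent: the earlier
ones a package needs are hypotheses.
-/

set_option autoImplicit false

open Pool.Agent.Y167 (cone)
open Pool.Agent.N110.CC Pool.Agent.N165.KM

namespace Pool.Agent.P8H34.MB

/-- the index set of the eigenvectors -/
abbrev Ix {b : ℕ} (d : Fin b → ℕ) : Type := Σ i : Fin b, Fin (d i)

/-- the properties of the weights -/
structure Blk {r b : ℕ} (d : Fin b → ℕ) (ℓ : Ix d → Frm r) : Prop where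
  dir : ∀ p : Ix d, ∃ v : Fin r → ℤ, 0 < ev (ℓ p) v ∧ (∀ q, q ≠ p → ev (ℓ q) v < ev (ℓ p) v) ∧
    ∀ q, q ≠ p → q.1 = p.1 → ev (ℓ q) v < 0
  bal : ∃ B : ℝ, ∀ a : Ix d → ℝ, ∃ v : Fin r → ℤ, ∀ p q : Ix d, p.1 = q.1 →
    a p + ev (ℓ p) v ≤ a q + ev (ℓ q) v + B

/-- the data: commuting integral linear maps `G v` of `ℝ ^ ρ`, rational blocks with the integral
vectors `s i j`, and joint eigenvectors `e p` with positive eigenvalues `exp (ℓ p v)`, each in its
block -/
structure Dat {r b ρ : ℕ} (d : Fin b → ℕ) (ℓ : Ix d → Frm r) (s : ∀ i, Fin (d i) → Fin ρ → ℤ)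
    (G : (Fin r → ℤ) → ((Fin ρ → ℝ) →ₗ[ℝ] (Fin ρ → ℝ)))
    (e : Module.Basis (Ix d) ℝ (Fin ρ → ℝ)) : Prop where
  blk : Blk d ℓ
  two : ∀ i, 2 ≤ d i
  card : ∑ i, d i = ρ
  li : LinearIndependent ℝ (fun p : Ix d => fun k => (s p.1 p.2 k : ℝ))
  zero : G 0 = 1
  add : ∀ u v, G (u + v) = G u * G v
  int : ∀ v, ∀ x ∈ IntL ρ, G v x ∈ IntL ρ
  lat : ∀ v i j, ∃ a : Fin (d i) → ℤ,
    G v (fun k => (s i j k : ℝ)) = comb (s i) (fun m => (a m : ℝ))
  mem : ∀ p, ∃ t, e p = comb (s p.1) t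
  eig : ∀ v p, G v (e p) = Real.exp (ev (ℓ p) v) • e p

/-- the vector `x` is in the relative interior of the cone over the eigenvectors of the block `i` -/
def InBlk {b ρ : ℕ} {d : Fin b → ℕ} (e : Module.Basis (Ix d) ℝ (Fin ρ → ℝ)) (i : Fin b)
    (x : Fin ρ → ℝ) : Prop :=
  ∀ p : Ix d, (p.1 = i → 0 < e.repr x p) ∧ (p.1 ≠ i → e.repr x p = 0)

/-- the vectors with nonnegative coordinates such that in every block all coordinates are zero or all
are positive -/
def plus {b ρ : ℕ} {d : Fin b → ℕ} (e : Module.Basis (Ix d) ℝ (Fin ρ → ℝ)) : Set (Fin ρ → ℝ) :=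
  {x | ∀ i, (∀ j : Fin (d i), e.repr x ⟨i, j⟩ = 0) ∨ ∀ j : Fin (d i), 0 < e.repr x ⟨i, j⟩}

/-- **(TRI)** The joint weights of commuting complex matrices (simultaneous triangular form).
Mathlib only.

Proof. Induction on the dimension for a finite dimensional complex vector space `V` with a family of
commuting endomorphisms `f v` (`v` in any index set; here `f (u + v) = f u * f v`, `f 0 = 1`): if
`dim V = 0` there is nothing to do. Else there is a joint eigenvector `u` (if all `f v` are scalars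
every vector is one, otherwise take a proper eigenspace `≠ 0` of some `f v`, which is invariant under
all `f w`, and use induction; or Mathlib's joint generalised eigenspaces), `f v u = χ₀ v • u`; `f`
acts on `V / ⟨u⟩`, `charpoly (f v) = (X - χ₀ v) * charpoly (f v on V / ⟨u⟩)`, and the induction
hypothesis for `V / ⟨u⟩` gives the other characters. A joint eigenvector `w` of `f` is either a
multiple of `u` (then `μ = χ₀`), or its image in `V / ⟨u⟩` is not zero and is a joint eigenvector with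
the same `μ`. (Alternative: `V` is the direct sum of the joint generalised eigenspaces, see
`Mathlib/LinearAlgebra/Eigenspace/Pi.lean`.) -/
def S_TRI : Prop :=
  ∀ (r d : ℕ) (A : (Fin r → ℤ) → Matrix (Fin d) (Fin d) ℂ), A 0 = 1 →
    (∀ u v, A (u + v) = A u * A v) → ∃ χ : Fin d → (Fin r → ℤ) → ℂ,
    (∀ j, χ j 0 = 1 ∧ ∀ u v, χ j (u + v) = χ j u * χ j v) ∧
    (∀ v, (A v).charpoly = ∏ j, (Polynomial.X - Polynomial.C (χ j v))) ∧
    ∀ (μ : (Fin r → ℤ) → ℂ) (u : Fin d → ℂ), u ≠ 0 → (∀ v, (A v).mulVec u = μ v • u) →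
      ∃ j, μ = χ j

/-- **(EIG)** If the weights of commuting real matrices have different absolute values at some `v₀`,
then there is a basis of real joint eigenvectors. Mathlib only.

Proof. The `d` complex roots `χ j v₀` of the real polynomial `charpoly (A v₀)` have different
absolute values. The conjugate of a root is a root with the same absolute value, so all roots are
real, and different. So `A v₀` has real eigenvectors `e j` with the eigenvalues `χ j v₀`; they are
independent, and the eigenspaces have dimension one. `A v` commutes with `A v₀`, so it preserves the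
eigenspaces: `A v (e j) = t j v • e j`, `t j v` real. The vector `e j` is a joint eigenvector over `ℂ`
with the character `t j`, so `t j = χ k` for some `k` by the hypothesis; evaluating at `v₀` gives
`χ j v₀ = t j v₀ = χ k v₀`, so `k = j`. Hence `|t j v| = ‖χ j v‖`. -/
def S_EIG : Prop :=
  ∀ (r d : ℕ) (A : (Fin r → ℤ) → Matrix (Fin d) (Fin d) ℝ), A 0 = 1 →
    (∀ u v, A (u + v) = A u * A v) → ∀ χ : Fin d → (Fin r → ℤ) → ℂ,
    (∀ v, ((A v).map (algebraMap ℝ ℂ)).charpoly =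
      ∏ j, (Polynomial.X - Polynomial.C (χ j v))) →
    (∀ (μ : (Fin r → ℤ) → ℂ) (u : Fin d → ℂ), u ≠ 0 →
      (∀ v, ((A v).map (algebraMap ℝ ℂ)).mulVec u = μ v • u) → ∃ j, μ = χ j) →
    (∃ v₀, ∀ j k, j ≠ k → ‖χ j v₀‖ ≠ ‖χ k v₀‖) →
    ∃ e : Fin d → (Fin d → ℝ), LinearIndependent ℝ e ∧
      ∀ j v, ∃ t : ℝ, |t| = ‖χ j v‖ ∧ (A v).mulVec (e j) = t • e j

/-- **(WGT)** A joint eigenvector in the cone whose weight is large at a given `v`. This is
`Pool.Agent.N110.CC.Act.weight` (file `Pool/Agent/N110/CC/Main.lean`) with `r + 1` replaced by `ρ`: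
copy the proof (together with `Act.pow`, `Act.unit`, `Act.unit_ne`). -/
def S_WGT : Prop :=
  S_PF → S_CE → ∀ (r ρ : ℕ), 0 < ρ → ∀ C : Set (Fin ρ → ℝ), PC C → (interior C).Nonempty →
    ∀ G : (Fin r → ℤ) → ((Fin ρ → ℝ) →ₗ[ℝ] (Fin ρ → ℝ)), G 0 = 1 →
    (∀ u v, G (u + v) = G u * G v) → (∀ v, ∀ x ∈ C, G v x ∈ C) → ∀ c δ : ℝ, 0 < c → 0 < δ →
    (∀ v, c * Real.exp (δ * ∑ i, |(v i : ℝ)|) ≤ ∑ j, ‖G v (Pi.single j 1)‖) →
    ∀ v, ∃ (ℓ : Frm r) (x : Fin ρ → ℝ), x ∈ C ∧ x ≠ 0 ∧
      (∀ w, G w x = Real.exp (ev ℓ w) • x) ∧ δ * ∑ i, |(v i : ℝ)| ≤ ev ℓ v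

/-- **(NUM)** The weights. Elementary.

Proof. (1) For real `x ∈ ℝ ^ r`: `δ ∑ |x i| ≤ max_p ℓ p x`: for integral `x` this is the hypothesis,
for rational `x` by homogeneity, for real `x` by continuity. (2) So the linear map
`Φ : ℝ ^ r → {τ : Ix d → ℝ | ∑ j, τ ⟨i, j⟩ = 0 for all i}`, `Φ x = (ℓ p x)_p`, is injective (if all
`ℓ p x = 0` then `x = 0`). The dimension of the right side is `∑ i, (d i - 1) = r`, so `Φ` is
surjective. (3) `dir`: for `p = ⟨i, j⟩` let `τ p = d i - 1`, `τ q = -1` for the other `q` of the block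
`i`, and `τ q = 0` for the other blocks; take `x` with `ℓ q x = τ q` for all `q`; since `d i ≥ 2` the
strict inequalities `0 < τ p`, `τ q < τ p` for `q ≠ p` and `τ q < 0` for `q ≠ p` in the block hold for
`x`, so for a rational vector near `x`, so for an integral multiple `v` of it. (4) the last claim: the
forms `ℓ p - ℓ q`, `p ≠ q`, are not zero (by (2) there is `x` with `ℓ p x = τ p` for any `τ` with block
sums zero, and some such `τ` has `τ p ≠ τ q`, since `d i ≥ 2`); use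
`Pool.Agent.N110.CC.S_SEP` (proved in the library: grep for `leafSEP`) or a direct argument (a
nonzero polynomial in `t` : `v = (1, t, t ^ 2, …)`). (5) `bal`: given `a`, let `m i` be the mean of
`a ⟨i, j⟩` over `j`; take `x` with `ℓ p x = m p.1 - a p` (the block sums are zero), and let `v` be the
vector of the integral parts of `x`; then `|ℓ p x - ev (ℓ p) v| ≤ B' := ∑_p ∑_k |ℓ p (Pi.single k 1)|`,
so `a p + ev (ℓ p) v` is in `[m p.1 - B', m p.1 + B']`; `B = 2 B'`. -/
def S_NUM : Prop :=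
  ∀ (r b : ℕ) (d : Fin b → ℕ), (∀ i, 2 ≤ d i) → r + b = ∑ i, d i →
    ∀ ℓ : Ix d → Frm r, (∀ i, ∑ j, ℓ ⟨i, j⟩ = 0) → ∀ δ : ℝ, 0 < δ →
    (∀ v : Fin r → ℤ, ∃ p, δ * ∑ i, |(v i : ℝ)| ≤ ev (ℓ p) v) →
    Blk d ℓ ∧ ∃ v : Fin r → ℤ, ∀ p q, p ≠ q → ev (ℓ p) v ≠ ev (ℓ q) v

/-- **(EX)** The eigenvectors. Uses `S_TRI`, `S_EIG`, `S_WGT` (with `S_PF`, `S_CE`) and `S_NUM` as
hypotheses.

Proof. (1) By `hlat` and the independence of the `s p` there are unique integral matrices `B i v` with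
`G v (s i j) = ∑ m, (B i v m j) • s i m`; so `B i 0 = 1`, `B i (u + v) = B i u * B i v`, and
`|det (B i v)| = 1` (product with `det (B i (-v))` is `1`). (2) `S_TRI` for `B i` over `ℂ` gives
`χ i j`; put `ℓ ⟨i, j⟩ x = ∑ k, x k * log ‖χ i j (Pi.single k 1)‖`, so
`ev (ℓ ⟨i, j⟩) v = log ‖χ i j v‖` (the function `v ↦ log ‖χ i j v‖` is additive). The product of the
`χ i j v` over `j` is `det (B i v)` (charpoly at `0`), so `∑ j, ℓ ⟨i, j⟩ = 0`. (3) For each `v`, `S_WGT`
gives `x ∈ C`, `x ≠ 0`, `G w x = exp (ev ℓ' w) • x`, `δ ∑ |v i| ≤ ev ℓ' v`. Write `x = ∑_i comb (s i) (a i)`;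
some `a i ≠ 0`; then `B i w (a i) = exp (ev ℓ' w) • a i` for all `w` (independence), so by the last part
of `S_TRI` (over `ℂ`) `exp (ev ℓ' w) = χ i j w` for some `j` and all `w`, so
`ev ℓ' v = ev (ℓ ⟨i, j⟩) v`. (4) `S_NUM` gives `Blk d ℓ` and `v₀` where the `ev (ℓ p) v₀` are different;
`S_EIG` for every block gives real `ε i j` with `B i v (ε i j) = t • ε i j`, `|t| = ‖χ i j v‖ =
exp (ev (ℓ ⟨i, j⟩) v)`. The vectors `comb (s i) (ε i j)` are a basis `e` (they are independent and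
`Fintype.card (Ix d) = ρ`), `G v (e p) = t • e p`, `|t| = exp (ev (ℓ p) v)`, so
`G (v + v) (e p) = t ^ 2 • e p = exp (ev (2 • ℓ p) v) • e p`. The forms `2 • ℓ p` satisfy `Blk` too
(`dir`: same `v`; `bal`: apply `bal` to `a / 2`). -/
def S_EX : Prop :=
  S_TRI → S_EIG → S_WGT → S_PF → S_CE → S_NUM →
  ∀ (r b ρ : ℕ) (d : Fin b → ℕ), (∀ i, 2 ≤ d i) → ∑ i, d i = ρ → r + b = ρ → 0 < ρ →
    ∀ C : Set (Fin ρ → ℝ), PC C → (interior C).Nonempty →
    ∀ G : (Fin r → ℤ) → ((Fin ρ → ℝ) →ₗ[ℝ] (Fin ρ → ℝ)), G 0 = 1 →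
    (∀ u v, G (u + v) = G u * G v) → (∀ v, ∀ x ∈ IntL ρ, G v x ∈ IntL ρ) →
    (∀ v, ∀ x ∈ C, G v x ∈ C) → ∀ c δ : ℝ, 0 < c → 0 < δ →
    (∀ v, c * Real.exp (δ * ∑ i, |(v i : ℝ)|) ≤ ∑ j, ‖G v (Pi.single j 1)‖) →
    ∀ s : ∀ i, Fin (d i) → Fin ρ → ℤ,
    LinearIndependent ℝ (fun p : Ix d => fun k => (s p.1 p.2 k : ℝ)) →
    (∀ v i j, ∃ a : Fin (d i) → ℤ,
      G v (fun k => (s i j k : ℝ)) = comb (s i) (fun m => (a m : ℝ))) →
    ∃ (ℓ : Ix d → Frm r) (e : Module.Basis (Ix d) ℝ (Fin ρ → ℝ)),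
      Dat d ℓ s (fun v => G (v + v)) e

/-- **(LIM)** Closed invariant cones contain the components of their elements. Copy of
`Pool.Agent.N110.CC.Str.limit` (file `Pool/Agent/N110/CC/Str.lean`): with `v` from `dir`,
`exp (- k ev (ℓ p) v) • G (k • v) x → e.repr x p • e p`, because
`exp (k (ev (ℓ q) v - ev (ℓ p) v)) → 0` for `q ≠ p`. -/
def S_LIM : Prop :=
  ∀ (r b ρ : ℕ) (d : Fin b → ℕ) (ℓ : Ix d → Frm r) (s : ∀ i, Fin (d i) → Fin ρ → ℤ)
    (G : (Fin r → ℤ) → ((Fin ρ → ℝ) →ₗ[ℝ] (Fin ρ → ℝ))) (e : Module.Basis (Ix d) ℝ (Fin ρ → ℝ)),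
    Dat d ℓ s G e → ∀ D : Set (Fin ρ → ℝ), IsClosed D → (∀ t : ℝ, 0 ≤ t → ∀ x ∈ D, t • x ∈ D) →
    (∀ v, ∀ x ∈ D, G v x ∈ D) → ∀ x ∈ D, ∀ p, e.repr x p • e p ∈ D

/-- **(ORT)** The invariant pointed closed cones with interior points are orthants.

Proof. Take `x` in the interior of `C` with all coordinates `e.repr x p ≠ 0` (the interior is not
contained in a finite union of hyperplanes; or: move `x` by a small multiple of `∑ p, e p` a few
times). By `S_LIM` `e.repr x p • e p ∈ C`, so `e p ∈ C` or `- e p ∈ C`; let `e' p = ± e p ∈ C`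
(`Module.Basis.unitsSMul` or `Basis.mk`); `Dat d ℓ s G e'` is clear. `C` contains all `x` with
nonnegative coordinates. If `x ∈ C` had a negative coordinate, then by `S_LIM` `- e' p ∈ C`,
contradiction with `e' p ∈ C` and `PC.pointed`. The description of the interior as in
`Pool.Agent.N110.CC.Str.interior_iff`. -/
def S_ORT : Prop :=
  S_LIM → ∀ (r b ρ : ℕ) (d : Fin b → ℕ) (ℓ : Ix d → Frm r) (s : ∀ i, Fin (d i) → Fin ρ → ℤ)
    (G : (Fin r → ℤ) → ((Fin ρ → ℝ) →ₗ[ℝ] (Fin ρ → ℝ))) (e : Module.Basis (Ix d) ℝ (Fin ρ → ℝ)),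
    Dat d ℓ s G e → ∀ C : Set (Fin ρ → ℝ), PC C → (interior C).Nonempty →
    (∀ v, ∀ x ∈ C, G v x ∈ C) →
    ∃ e' : Module.Basis (Ix d) ℝ (Fin ρ → ℝ), Dat d ℓ s G e' ∧
      (∀ x, x ∈ C ↔ ∀ p, 0 ≤ e'.repr x p) ∧ ∀ x, x ∈ interior C ↔ ∀ p, 0 < e'.repr x p

/-- **(RAT)** Integral vectors: in every block all coordinates are zero or none is.

Proof. The `s p` are `ρ` independent integral vectors, so for some `k ≥ 1` (Cramer; `k` may depend on
`z`) `k • z = ∑_i z' i`, `z' i` an integral combination of the `s i j`. The coordinates of `k • z` in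
the block `i` are those of `z' i`, and `z' i` has no coordinates in the other blocks (`mem`; the span of
the `e ⟨i, j⟩` is the span of the `s i j` by dimensions). Suppose that `e.repr z ⟨i, j⟩ = 0` but
`z' i ≠ 0`. Take `v` from `dir` for `p = ⟨i, j⟩`: `G (k • v) (z' i) = ∑_{j' ≠ j} exp (k ev (ℓ ⟨i, j'⟩) v)
• (e.repr (z' i) ⟨i, j'⟩ • e ⟨i, j'⟩) → 0` as `k → ∞`. But `G (k • v) (z' i)` is an integral vector,
`≠ 0` because `G (k • v)` is invertible: contradiction (a nonzero integral vector has norm `≥ 1`). -/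
def S_RAT : Prop :=
  ∀ (r b ρ : ℕ) (d : Fin b → ℕ) (ℓ : Ix d → Frm r) (s : ∀ i, Fin (d i) → Fin ρ → ℤ)
    (G : (Fin r → ℤ) → ((Fin ρ → ℝ) →ₗ[ℝ] (Fin ρ → ℝ))) (e : Module.Basis (Ix d) ℝ (Fin ρ → ℝ)),
    Dat d ℓ s G e → ∀ z ∈ IntL ρ, ∀ i,
    (∀ j : Fin (d i), e.repr z ⟨i, j⟩ = 0) ∨ ∀ j : Fin (d i), e.repr z ⟨i, j⟩ ≠ 0

/-- **(CVR)** The interior of the orthant is covered by the translates of the cone over finitely many
integral vectors, each in one block. `S_COV` is a theorem of the library (grep for `leafCOV`).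

Proof. Let `B` be from `bal`. For the block `i` the map `t ↦ comb (s i) t` from `ℝ ^ (d i)` onto the
span of the block is injective; in `ℝ ^ (d i)` let `C i` be the closed cone of the `t` such that all
coordinates `e.repr (comb (s i) t) ⟨i, j⟩` are `≥ 0` (`PC`; its interior is where they are `> 0`), and
`K i` the closed subset where moreover `e.repr _ ⟨i, j⟩ ≤ exp B * e.repr _ ⟨i, j'⟩` for all `j, j'`; a
vector `t ≠ 0` in `K i` has all coordinates positive. `S_COV` gives finitely many integral vectors `a`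
in the interior of `C i` whose cone contains `K i`; `F` is the set of all the `comb (s i) a` (integral,
in the block `i`, with positive coordinates; if the finite set of a block is empty add nothing: see
the last claim). Covering: let all coordinates of `x` be positive; `bal` for `a p = log (e.repr x p)`
gives `v` with `e.repr (G v x) p ≤ exp B * e.repr (G v x) q` for `p.1 = q.1`; so the component of
`G v x` in the block `i` is `comb (s i) t`, `t ∈ K i`. The last claim follows from the covering: the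
vector `∑ p, e p` is moved into `cone F`, so for every `i` some `a ∈ F` has a nonzero coordinate in the
block `i`. -/
def S_CVR : Prop :=
  S_COV → ∀ (r b ρ : ℕ) (d : Fin b → ℕ) (ℓ : Ix d → Frm r) (s : ∀ i, Fin (d i) → Fin ρ → ℤ)
    (G : (Fin r → ℤ) → ((Fin ρ → ℝ) →ₗ[ℝ] (Fin ρ → ℝ))) (e : Module.Basis (Ix d) ℝ (Fin ρ → ℝ)),
    Dat d ℓ s G e → ∃ F : Finset (Fin ρ → ℝ), (∀ a ∈ F, a ∈ IntL ρ ∧ ∃ i, InBlk e i a) ∧
      (∀ x, (∀ p, 0 < e.repr x p) → ∃ v, G v x ∈ cone F) ∧ ∀ i, ∃ a ∈ F, InBlk e i a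

/-- **(ORB)** An invariant convex cone which contains a vector in the interior of every block contains
`plus e`.

Proof. `N` is closed under sums, so it suffices to show: if `InBlk e i a`, `a ∈ N` and `InBlk e i z`
then `z ∈ N`. For each `j` let `v j` be the vector of `dir` for `⟨i, j⟩`, and
`w j k = exp (- k ev (ℓ ⟨i, j⟩) (v j)) • G (k • v j) a ∈ N`, which tends to
`e.repr a ⟨i, j⟩ • e ⟨i, j⟩` as `k → ∞`, and all coordinates of `w j k` are in the block `i`. For `k`
large the `d i × d i` matrix of the coordinates of the `w j k` is strictly close to the diagonal matrix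
`D` with positive entries, so it is invertible and the solution `x` of `z = ∑ j, x j • w j k` is close
to `D⁻¹ z`, which has positive entries. (Or: the convex cone `N' ⊆ ℝ ^ (d i)` of the coordinate
vectors of the elements of `N` in the block has all unit vectors in its closure, so its closure
contains the open orthant, and a convex set contains the interior of its closure:
`Convex.interior_closure_eq_interior_of_nonempty_interior`.) -/
def S_ORB : Prop :=
  ∀ (r b ρ : ℕ) (d : Fin b → ℕ) (ℓ : Ix d → Frm r) (s : ∀ i, Fin (d i) → Fin ρ → ℤ)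
    (G : (Fin r → ℤ) → ((Fin ρ → ℝ) →ₗ[ℝ] (Fin ρ → ℝ))) (e : Module.Basis (Ix d) ℝ (Fin ρ → ℝ)),
    Dat d ℓ s G e → ∀ N : Set (Fin ρ → ℝ), 0 ∈ N → (∀ x ∈ N, ∀ y ∈ N, x + y ∈ N) →
    (∀ t : ℝ, 0 ≤ t → ∀ x ∈ N, t • x ∈ N) → (∀ v, ∀ x ∈ N, G v x ∈ N) →
    (∀ i, ∃ a ∈ N, InBlk e i a) → plus e ⊆ N

/-- **(HUL)** The rational hull of the orthant is `plus e`.

Proof. A rational vector with nonnegative coordinates is in `plus e` by `S_RAT` (multiply by a common
denominator), and `plus e` is a convex cone. Conversely apply `S_ORB` to `N` = the rational hull: it is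
a convex cone, `G v` maps rational vectors to rational vectors (`int`) and preserves the signs of the
coordinates (`eig`), and `S_CVR` gives integral vectors in the blocks. -/
def S_HUL : Prop :=
  S_RAT → S_CVR → S_COV → S_ORB → ∀ (r b ρ : ℕ) (d : Fin b → ℕ) (ℓ : Ix d → Frm r)
    (s : ∀ i, Fin (d i) → Fin ρ → ℤ) (G : (Fin r → ℤ) → ((Fin ρ → ℝ) →ₗ[ℝ] (Fin ρ → ℝ)))
    (e : Module.Basis (Ix d) ℝ (Fin ρ → ℝ)), Dat d ℓ s G e →
    ratHull {x | ∀ p, 0 ≤ e.repr x p} = plus e

/-- **(LOO)** (Looijenga) If a group has a rational polyhedral fundamental domain on `N`,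
`interior C ⊆ N ⊆ C`, then all integral vectors of `C` are in `N`.

Proof. Let `ξ` be an integral linear functional with `ξ x ≥ c ‖x‖`, `c > 0`, on `C`
(`Pool.Agent.N165.KM.exists_int_functional`, see also `exists_cdata`), and `S` the finite set of
integral vectors in `N` with `∀ x ∈ N, ∃ f, pull f x ∈ cone S` (`HasFD.cover`). Let `𝒢` be the group of
the maps `pull f`. (1) Dickson (`Pool.Agent.Y167.CData.exists_dickson`, for `CData` of the sandwich
`N ⊆ C`, or for `C` itself): there is a finite `T ⊆ 𝒢` such that for every `g ∈ 𝒢` some `t ∈ T` has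
`ξ (t a) ≤ ξ (g a)` for all `a ∈ S`, hence `ξ (t z) ≤ ξ (g z)` for all `z ∈ cone S`. (2) Let `x ∈ C` be
integral and `y` integral in the interior of `C`. For `k ≥ 1` `x + (1 / k) y` is in the interior of `C`,
so `g_k (x + (1 / k) y) ∈ cone S` for some `g_k ∈ 𝒢`; let `t_k ∈ T` have the least value
`ξ (t_k g_k (x + (1 / k) y))`; by (1) this is the least value of `ξ (h (x + (1 / k) y))` over all
`h ∈ 𝒢`. Let `h₀ ∈ 𝒢` have the least value `m = ξ (h₀ x)` (natural numbers). Then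
`m + (1 / k) ξ (t_k g_k y) ≤ ξ (t_k g_k x) + (1 / k) ξ (t_k g_k y) ≤ m + (1 / k) ξ (h₀ y)`, so
`ξ (t_k g_k y) ≤ ξ (h₀ y)` and `ξ (t_k g_k x) ≤ m + ξ (h₀ y)`: the integral vectors `t_k g_k x`,
`t_k g_k y` in `C` are bounded, so they, and `t_k`, take the same values for infinitely many `k`; for
these `k` `g_k x = x'`, `g_k y = y'` and `x' + (1 / k) y' ∈ cone S`. The cone over a finite set is closed
(`Pool.Agent.Y167.cone_closed`), so `x' ∈ cone S ⊆ N`, and `x ∈ N`. -/
def S_LOO : Prop :=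
  ∀ (ρ : ℕ) (C N : Set (Fin ρ → ℝ)), Sandwich C N → ∀ (A : Type) [Group A]
    (pull : A → ((Fin ρ → ℝ) ≃ₗ[ℝ] (Fin ρ → ℝ))), (∀ f g, pull (f * g) = pull g * pull f) →
    (∀ f, ∀ x ∈ IntL ρ, pull f x ∈ IntL ρ) → (∀ f, ∀ x ∈ N, pull f x ∈ N) →
    (∀ f, ∀ x ∈ C, pull f x ∈ C) → HasFD pull N → ∀ x ∈ C, x ∈ IntL ρ → x ∈ N

end Pool.Agent.P8H34.MB
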